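import Pool.Agent.P8H79.RC.Stm2

/-!
# Project RC, packages NZA and NZB: closed forms of the pivot recursion at `s = -2` and `s = -1`.
-/

set_option autoImplicit false
set_option maxHeartbeats 4000000

namespace Pool.Agent.P8H38.RC

open Pool.Agent.P8H79.RC

theorem vec_succ_true (s : ℤ) (k : ℕ) :
    vec s (fun _ => true) (k + 1) =
      { a := s * (vec s (fun _ => true) k).e, b := s * (vec s (fun _ => true) k).f,
        c := (vec s (fun _ => true) k).b + (s - 1) * (vec s (fun _ => true) k).e,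
        d := (vec s (fun _ => true) k).a + (s - 1) * (vec s (fun _ => true) k).f,
        e := (vec s (fun _ => true) k).d + (s - 1) * (vec s (fun _ => true) k).g,
        f := (vec s (fun _ => true) k).c + (s - 1) * (vec s (fun _ => true) k).g,
        g := (vec s (fun _ => true) k).c + (vec s (fun _ => true) k).d +
          (s - 2) * (vec s (fun _ => true) k).g } := by
  rw [vec, stepV]
  simp

/-- The closed form at `s = -2`. -/
theorem closed2 (k : ℕ) :
    36 * (vec (-2) (fun _ => true) k).a = (-2) ^ k * (12 * (k : ℤ) - 36) + (18 - 12 * (k : ℤ)) + 54 * (-1) ^ k ∧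
    36 * (vec (-2) (fun _ => true) k).b = (-2) ^ k * (12 * (k : ℤ) - 40) + (12 * (k : ℤ) - 14) + 54 * (-1) ^ k ∧
    36 * (vec (-2) (fun _ => true) k).c = (-2) ^ k * (12 * (k : ℤ) - 28) + (1 - 6 * (k : ℤ)) + 27 * (-1) ^ k ∧
    36 * (vec (-2) (fun _ => true) k).d = (-2) ^ k * (12 * (k : ℤ) - 36) + (6 * (k : ℤ) + 9) + 27 * (-1) ^ k ∧
    36 * (vec (-2) (fun _ => true) k).e = (-2) ^ k * (12 * (k : ℤ) - 24) + (6 * (k : ℤ) - 3) + 27 * (-1) ^ k ∧
    36 * (vec (-2) (fun _ => true) k).f = (-2) ^ k * (12 * (k : ℤ) - 28) + (1 - 6 * (k : ℤ)) + 27 * (-1) ^ k ∧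
    36 * (vec (-2) (fun _ => true) k).g = (-2) ^ k * (12 * (k : ℤ) - 20) + 2 + 18 * (-1) ^ k := by
  induction k with
  | zero => simp [vec]
  | succ k ih =>
    obtain ⟨ha, hb, hc, hd, he, hf, hg⟩ := ih
    rw [vec_succ_true]
    simp only [pow_succ]
    push_cast
    refine ⟨?_, ?_, ?_, ?_, ?_, ?_, ?_⟩
    · linear_combination (-2) * he
    · linear_combination (-2) * hf
    · linear_combination hb + (-3) * he
    · linear_combination ha + (-3) * hf
    · linear_combination hd + (-3) * hg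
    · linear_combination hc + (-3) * hg
    · linear_combination hc + hd + (-4) * hg

theorem nza : S_NZA := by
  intro N hN h0
  have h := (closed2 N).1
  rw [h0] at h
  have hN' : (10 : ℤ) ≤ N := by exact_mod_cast hN
  have hP : (1024 : ℤ) ≤ 2 ^ N := by
    calc (1024 : ℤ) = 2 ^ 10 := by norm_num
      _ ≤ 2 ^ N := pow_le_pow_right₀ (by norm_num) hN
  rcases Nat.even_or_odd N with he | ho
  · rw [he.neg_pow, he.neg_one_pow] at h
    nlinarith [mul_nonneg (sub_nonneg.2 hP) (by linarith : (0 : ℤ) ≤ 12 * (N : ℤ) - 36)]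
  · rw [ho.neg_pow, ho.neg_one_pow] at h
    nlinarith [mul_nonneg (sub_nonneg.2 hP) (by linarith : (0 : ℤ) ≤ 12 * (N : ℤ) - 36)]

/-- The closed form at `s = -1`. -/
theorem closed1 (k : ℕ) :
    2 * (vec (-1) (fun _ => true) k).a =
      (-1) ^ k * (-2 * (Nat.fib k : ℤ) + 4 * (Nat.fib (k + 1) : ℤ) - 1 - 2 * k) - 1 ∧
    2 * (vec (-1) (fun _ => true) k).b =
      (-1) ^ k * (4 * (Nat.fib k : ℤ) - 1 - 2 * k) + 1 ∧
    2 * (vec (-1) (fun _ => true) k).c =
      (-1) ^ k * (4 * (Nat.fib (k + 1) : ℤ) - 3 - 2 * k) - 1 ∧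
    2 * (vec (-1) (fun _ => true) k).d =
      (-1) ^ k * (2 * (Nat.fib k : ℤ) + 2 * (Nat.fib (k + 1) : ℤ) - 3 - 2 * k) + 1 ∧
    2 * (vec (-1) (fun _ => true) k).e =
      (-1) ^ k * (4 * (Nat.fib k : ℤ) + 2 * (Nat.fib (k + 1) : ℤ) - 3 - 2 * k) + 1 ∧
    2 * (vec (-1) (fun _ => true) k).f =
      (-1) ^ k * (4 * (Nat.fib (k + 1) : ℤ) - 3 - 2 * k) - 1 ∧
    2 * (vec (-1) (fun _ => true) k).g =
      (-1) ^ k * (2 * (Nat.fib k : ℤ) + 4 * (Nat.fib (k + 1) : ℤ) - 4 - 2 * k) := by
  induction k with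
  | zero => simp [vec]
  | succ k ih =>
    obtain ⟨ha, hb, hc, hd, he, hf, hg⟩ := ih
    rw [vec_succ_true, Nat.fib_add_two]
    simp only [pow_succ]
    push_cast
    refine ⟨?_, ?_, ?_, ?_, ?_, ?_, ?_⟩
    · linear_combination (-1) * he
    · linear_combination (-1) * hf
    · linear_combination hb + (-2) * he
    · linear_combination ha + (-2) * hf
    · linear_combination hd + (-2) * hg
    · linear_combination hc + (-2) * hg
    · linear_combination hc + hd + (-3) * hg

theorem fib_ge (k : ℕ) (hk : 9 ≤ k) : k + 25 ≤ Nat.fib k ∧ Nat.fib k + 13 ≤ Nat.fib (k + 1) := by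
  induction k, hk using Nat.le_induction with
  | base => decide
  | succ k hk ih =>
    rw [Nat.fib_add_two]
    have h := Nat.fib_le_fib_succ (n := k)
    omega

theorem nzb : S_NZB := by
  intro N hN
  constructor
  · intro h0
    have h := (closed1 N).1
    obtain ⟨h1, h2⟩ := fib_ge N (by omega)
    rw [h0] at h
    have h1' : (N : ℤ) + 25 ≤ Nat.fib N := by exact_mod_cast h1
    have h2' : (Nat.fib N : ℤ) + 13 ≤ Nat.fib (N + 1) := by exact_mod_cast h2
    rcases Nat.even_or_odd N with he | ho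
    · rw [he.neg_one_pow] at h
      linarith
    · rw [ho.neg_one_pow] at h
      linarith
  · intro h0
    obtain ⟨k, rfl⟩ : ∃ k, N = k + 1 := ⟨N - 1, by omega⟩
    simp only [Nat.add_sub_cancel] at h0
    have hc := (closed1 k).2.2.1
    have he' := (closed1 k).2.2.2.2.1
    rw [h0] at hc
    obtain ⟨j, rfl⟩ : ∃ j, k = j + 2 := ⟨k - 2, by omega⟩
    have hj : 7 ≤ j := by omega
    have hfj : 2 ≤ Nat.fib j := by
      calc 2 ≤ Nat.fib 7 := by decide
        _ ≤ Nat.fib j := Nat.fib_mono hj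
    have hfj' : (2 : ℤ) ≤ Nat.fib j := by exact_mod_cast hfj
    have e3 : Nat.fib (j + 2 + 1) = Nat.fib j + 2 * Nat.fib (j + 1) := by
      rw [Nat.fib_add_two (n := j + 1), Nat.fib_add_two]
      ring
    rw [e3] at hc he'
    rw [Nat.fib_add_two (n := j)] at he'
    push_cast at hc he'
    rcases Nat.even_or_odd (j + 2) with he | ho
    · rw [he.neg_one_pow] at hc he'
      linarith
    · rw [ho.neg_one_pow] at hc he'
      linarith

end Pool.Agent.P8H38.RC
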