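import Pool.Agent.P8H79.RC.Stm

/-!
# Project RC, package STB: the graph of the triangles is connected.
-/

set_option autoImplicit false
set_option maxHeartbeats 4000000

namespace Pool.Agent.P8H38.RC

open Pool.Agent.P8H79.RC Finset

open Classical in
/-- Two triangles with two common vertices are equal or adjacent. -/
theorem tri_two {V : Type} (G : SimpleGraph V) (S T : Tri G) (v x : V) (hvx : v ≠ x)
    (hvS : v ∈ S.1) (hxS : x ∈ S.1) (hvT : v ∈ T.1) (hxT : x ∈ T.1) : (triGraph G).Reachable S T := by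
  by_cases hST : S = T
  · rw [hST]
  · apply SimpleGraph.Adj.reachable
    refine ⟨hST, ?_⟩
    have hS : S.1.card = 3 := S.2.card_eq
    have hT : T.1.card = 3 := T.2.card_eq
    have h2 : 2 ≤ (S.1 ∩ T.1).card := by
      have hsub : ({v, x} : Finset V) ⊆ S.1 ∩ T.1 := by
        intro y hy
        simp only [mem_insert, mem_singleton] at hy
        rcases hy with rfl | rfl
        · exact mem_inter.2 ⟨hvS, hvT⟩
        · exact mem_inter.2 ⟨hxS, hxT⟩
      have := card_le_card hsub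
      rwa [card_pair hvx] at this
    have h3 : (S.1 ∩ T.1).card < 3 := by
      by_contra hcon
      have hSI : S.1 ∩ T.1 = S.1 := eq_of_subset_of_card_le inter_subset_left (by omega)
      have hTI : S.1 ∩ T.1 = T.1 := eq_of_subset_of_card_le inter_subset_right (by omega)
      exact hST (Subtype.ext (hSI.symm.trans hTI))
    have h4 : (S.1 ∩ T.1).card = 2 := by omega
    convert h4

open Classical in
/-- A triangle through three pairwise adjacent vertices. -/
theorem tri_mk {V : Type} (G : SimpleGraph V) (a b c : V) (hab : G.Adj a b) (hac : G.Adj a c)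
    (hbc : G.Adj b c) : ∃ S : Tri G, a ∈ S.1 ∧ b ∈ S.1 ∧ c ∈ S.1 := by
  have h : G.IsNClique 3 ({a, b, c} : Finset V) := by
    rw [SimpleGraph.is3Clique_iff]
    exact ⟨a, b, c, hab, hac, hbc, rfl⟩
  exact ⟨⟨{a, b, c}, h⟩, by simp, by simp, by simp⟩

theorem tri_link {V : Type} (G : SimpleGraph V) (v : V) (x y : G.neighborSet v)
    (p : (link G v).Walk x y) : ∀ S T : Tri G, v ∈ S.1 → x.1 ∈ S.1 → v ∈ T.1 → y.1 ∈ T.1 →
      (triGraph G).Reachable S T := by
  induction p with
  | nil =>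
    intro S T h1 h2 h3 h4
    exact tri_two G S T v _ (G.ne_of_adj (Subtype.prop _)) h1 h2 h3 h4
  | @cons a b c hab p ih =>
    intro S T h1 h2 h3 h4
    have hab' : G.Adj a.1 b.1 := hab
    obtain ⟨U, u1, u2, u3⟩ := tri_mk G v a.1 b.1 a.2 b.2 hab'
    exact (tri_two G S U v a.1 (G.ne_of_adj a.2) h1 h2 u1 u2).trans (ih U T u1 u3 h3 h4)

/-- Another vertex of a triangle. -/
theorem tri_other {V : Type} (G : SimpleGraph V) (S : Tri G) (v : V) (hv : v ∈ S.1) :
    ∃ x : G.neighborSet v, x.1 ∈ S.1 := by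
  have hS : S.1.card = 3 := S.2.card_eq
  obtain ⟨x, hx, hne⟩ := Finset.exists_mem_ne (by omega : 1 < S.1.card) v
  exact ⟨⟨x, S.2.isClique hv hx hne.symm⟩, hx⟩

theorem tri_vertex {V : Type} (G : SimpleGraph V) (hl : ∀ v, (link G v).Connected) (v : V)
    (S T : Tri G) (hS : v ∈ S.1) (hT : v ∈ T.1) : (triGraph G).Reachable S T := by
  obtain ⟨x, hx⟩ := tri_other G S v hS
  obtain ⟨y, hy⟩ := tri_other G T v hT
  obtain ⟨p⟩ := (hl v).preconnected x y
  exact tri_link G v x y p S T hS hx hT hy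

theorem tri_edge {V : Type} (G : SimpleGraph V) (hc : ∀ a b, G.Adj a b → 1 ≤ cc G a b)
    (a b : V) (h : G.Adj a b) : ∃ S : Tri G, a ∈ S.1 ∧ b ∈ S.1 := by
  have h1 := hc a b h
  have hne : {x : V | G.Adj a x ∧ G.Adj b x}.Nonempty := by
    apply Set.nonempty_of_ncard_ne_zero
    unfold cc at h1
    omega
  obtain ⟨x, hax, hbx⟩ := hne
  obtain ⟨S, h1, h2, _⟩ := tri_mk G a b x h hax hbx
  exact ⟨S, h1, h2⟩

theorem tri_walk {V : Type} (G : SimpleGraph V) (hl : ∀ v, (link G v).Connected)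
    (hc : ∀ a b, G.Adj a b → 1 ≤ cc G a b) (v w : V) (p : G.Walk v w) :
    ∀ S T : Tri G, v ∈ S.1 → w ∈ T.1 → (triGraph G).Reachable S T := by
  induction p with
  | nil => exact fun S T h1 h2 => tri_vertex G hl _ S T h1 h2
  | @cons a b c hab p ih =>
    intro S T h1 h2
    obtain ⟨U, u1, u2⟩ := tri_edge G hc a b hab
    exact (tri_vertex G hl a S U h1 u1).trans (ih U T u2 h2)

theorem stb : S_STB := by
  intro V _ G hG hl hc
  have hne : Nonempty V := hG.nonempty
  obtain ⟨v⟩ := hne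
  obtain ⟨x⟩ := (hl v).nonempty
  obtain ⟨S0, _, _⟩ := tri_edge G hc v x.1 x.2
  have : Nonempty (Tri G) := ⟨S0⟩
  refine SimpleGraph.Connected.mk (fun S T => ?_)
  have hS : S.1.card = 3 := S.2.card_eq
  have hT : T.1.card = 3 := T.2.card_eq
  obtain ⟨a, ha⟩ : S.1.Nonempty := Finset.card_pos.1 (by omega)
  obtain ⟨b, hb⟩ : T.1.Nonempty := Finset.card_pos.1 (by omega)
  obtain ⟨p⟩ := hG.preconnected a b
  exact tri_walk G hl hc a b p S T ha hb

end Pool.Agent.P8H38.RC
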